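import Pool.Agent.KS6_80.SN.Main
import Pool.Agent.KS6_80.TF.Fin
import Pool.Graph.R_pool_sql_team_seeded_5cf16337.K3h38.AD.Main
import Pool.Graph.R_pool_sql_team_seeded_5cf16337.K3h38.PC.Density
import Pool.Graph.R_pool_sql_team_seeded_5cf16337.K3h3.AD.Crit
import Pool.Graph.R_pool_sql_team_seeded_5cf16337.K3h6.AD.Div0
import Pool.Graph.R_pool_sql_team_seeded_5cf16337.K3h19.AD.Nosol
import Pool.Graph.R_pool_sql_team_seeded_5cf16337.K3h23.AD.Jet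
import Pool.Graph.R_pool_sql_team_seeded_5cf16337.K3h24.AD.Div
import Pool.Graph.R_pool_sql_team_seeded_5cf16337.K3h25.AD.Chart
import Pool.Graph.R_pool_sql_team_seeded_5cf16337.K3h59.AD.Step
import Pool.Graph.R_pool_sql_team_seeded_5cf16337.K3h72.AD.Open
import Pool.Graph.R_pool_sql_team_seeded_5cf16337.K3h86.AD.Desc
import Pool.Graph.R_pool_sql_team_seeded_5cf16337.K3h77.AD.Kosx

set_option autoImplicit false

/-! # The zeta functions of almost all products of powers of given forms -/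

namespace Pool.Agent.KS6_80.AD

open MvPolynomial Pool.Agent.K3h38.AD
open Pool.Agent.Y230.PT Pool.Agent.Y230.PS Pool.Agent.H628R4.TP
open Pool.Agent.KS6_80.SN (Snc)

theorem crit : S_CRIT :=
  Pool.Agent.K3h3.AD.t_CRIT
    (Pool.Agent.K3h19.AD.t_NOSOL (Pool.Agent.K3h59.AD.t_STEP (Pool.Agent.K3h24.AD.t_DIV
      (Pool.Agent.K3h6.AD.t_DIV0 Pool.Agent.K3h77.AD.t_KOSX))))
    Pool.Agent.K3h25.AD.t_CHART Pool.Agent.K3h86.AD.t_DESC

/-- The root `-(m + 1)/d` gives the zeta functions, for three variables, and for normal crossings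
in the projective space. -/
theorem fr_root {m : ℕ} {κ : Type} [Fintype κ] [DecidableEq κ]
    (F : κ → MvPolynomial (Fin (m + 1)) ℚ) (e n : κ → ℕ)
    (hh : ∀ i, (F i).IsHomogeneous (e i)) (he : ∀ i, 0 < e i) (hF0 : ∀ i, F i ≠ 0)
    (hloc : m = 2 ∨ 1 ≤ m ∧ Snc fun i => map (algebraMap ℚ ℂ) (F i))
    (hd : 0 < ∑ i, n i * e i)
    (hroot : ∀ B : Polynomial ℂ, IsBFunction (∏ i, map (algebraMap ℚ ℂ) (F i) ^ n i) B →
      B.eval (-((m + 1 : ℕ) : ℂ) / ((∑ i, n i * e i : ℕ) : ℂ)) = 0) (p : ℕ) [Fact p.Prime] :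
    FR p (mR p (hyp (∏ i, F i ^ n i))) (FF ((hyp (∏ i, F i ^ n i)).toP p)) := by
  classical
  rcases hloc with rfl | ⟨hm, hS⟩
  · have h0 : (∏ i, F i ^ n i) ≠ 0 := Finset.prod_ne_zero_iff.2 fun i _ => pow_ne_zero _ (hF0 i)
    have hhom : (∏ i, F i ^ n i).IsHomogeneous (∑ i, n i * e i) := by
      refine IsHomogeneous.prod _ _ _ fun i _ => ?_
      rw [mul_comm]
      exact (hh i).pow (n i)
    have h1 := Pool.Agent.KS6_80.TF.form3_FR (p := p) _ h0 _ hd hhom (fun B hB => ?_) (fun _ => 1)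
      fun _ => one_ne_zero
    · rw [scl_one] at h1
      exact h1
    · rw [map_prod] at hB
      simp only [map_pow] at hB
      have h2 := hroot B hB
      have h3 : ((2 + 1 : ℕ) : ℂ) = 3 := by norm_num
      rw [h3] at h2
      exact h2
  · exact Pool.Agent.KS6_80.SN.snc_FR (by omega) F e n he hh hF0 hS hd hroot

/-- **The main theorem**: `R` is a property of polynomials which follows from the form of the zeta
functions. -/
theorem almost (R : ∀ {m : ℕ}, MvPolynomial (Fin (m + 1)) ℚ → Prop)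
    (hR : ∀ {m : ℕ} (f : MvPolynomial (Fin (m + 1)) ℚ),
      (∀ (p : ℕ) [Fact p.Prime], FR p (mR p (hyp f)) (FF ((hyp f).toP p))) → R f)
    {m r : ℕ} (F : Fin (r + 1) → MvPolynomial (Fin (m + 1)) ℚ) (e : Fin (r + 1) → ℕ)
    (hh : ∀ i, (F i).IsHomogeneous (e i)) (he : ∀ i, 0 < e i)
    (hloc : m = 2 ∨ 1 ≤ m ∧ Snc fun i => map (algebraMap ℚ ℂ) (F i))
    (a : Fin (r + 1) → ℂ) (q : Fin m → ℂ)
    (hcrit : IsCritical (fun i => map (algebraMap ℚ ℂ) (F i)) e a q) :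
    (∃ (P0 N : ℕ) (Δ : MvPolynomial (Fin r) ℤ), Δ ≠ 0 ∧ Δ.IsHomogeneous N ∧
      ∀ (n : Fin (r + 1) → ℕ) (ℓ : ℕ), ℓ.Prime → P0 ≤ ℓ → 0 < ∑ i, n i * e i →
        ℓ ∣ ∑ i, n i * e i → ¬ (ℓ : ℤ) ∣ eval (fun i => (n i.succ : ℤ)) Δ → R (∏ i, F i ^ n i)) ∧
    ∀ ε : ℝ, 0 < ε → ∃ N0 : ℕ, ∀ N : ℕ, N0 ≤ N → ∀ T : Finset (Fin (r + 1) → ℕ),
      (∀ n ∈ T, (∀ i, 1 ≤ n i ∧ n i ≤ N) ∧ ¬ R (∏ i, F i ^ n i)) →
      (T.card : ℝ) ≤ ε * (N : ℝ) ^ (r + 1) := by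
  classical
  have hF0 : ∀ i, F i ≠ 0 := by
    intro i h
    apply hcrit.2.1 i
    change eval q (Pool.Agent.K3h38.AD.deh (map (algebraMap ℚ ℂ) (F i))) = 0
    rw [h, map_zero, Pool.Agent.K3h38.AD.deh, map_zero, map_zero]
  obtain ⟨P0, N, Δ, hΔ, hN, hmain⟩ := main_hom crit Pool.Agent.K3h23.AD.t_JET
      Pool.Agent.K3h72.AD.t_OPEN (fun i => map (algebraMap ℚ ℂ) (F i)) e (fun i => (hh i).map _)
      (he 0) a q hcrit
  have hSM : ∀ (n : Fin (r + 1) → ℕ) (ℓ : ℕ), ℓ.Prime → P0 ≤ ℓ → 0 < ∑ i, n i * e i →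
      ℓ ∣ ∑ i, n i * e i → ¬ (ℓ : ℤ) ∣ eval (fun i => (n i.succ : ℤ)) Δ →
      R (∏ i, F i ^ n i) := by
    intro n ℓ hp hpP hd hpd hn
    refine hR _ fun p _ => ?_
    exact fr_root F e n hh he hF0 hloc hd (hmain n ℓ hp hpP hd hpd hn) p
  refine ⟨⟨P0, N, Δ, hΔ, hN, hSM⟩, fun ε hε => ?_⟩
  obtain ⟨N0, hN0⟩ := Pool.Agent.K3h38.PC.density e (he 0) P0 Δ hΔ ε hε
  refine ⟨N0, fun N hN T hT => hN0 N hN T fun n hn => ?_⟩
  obtain ⟨h5, h6⟩ := hT n hn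
  refine ⟨fun i => (h5 i).2, fun ℓ hp hpP hpd => ?_⟩
  by_contra h7
  refine h6 (hSM n ℓ hp hpP ?_ hpd h7)
  exact Finset.sum_pos (fun i _ => Nat.mul_pos (h5 i).1 (he i)) Finset.univ_nonempty

/-- **The strong monodromy conjecture for `f` and every prime `p`**: the real part of every pole `s₀` of
the meromorphic continuation `Z` of the `p`-adic zeta function of `f` is a root of every `B` with
`B(s) f ^ s = P(s) f ^ (s + 1)`, for instance of `b_f`. -/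
def SMC {V : Type} [Fintype V] (f : MvPolynomial V ℚ) : Prop :=
  ∀ (p : ℕ) [Fact p.Prime] (B : Polynomial ℂ), IsBFunction (map (algebraMap ℚ ℂ) f) B →
    ∀ Z : ℂ → ℂ, MeromorphicOn Z Set.univ → (∀ s : ℂ, 0 < s.re → Z s = zetaQ p f s) →
    ∀ s₀ : ℂ, meromorphicOrderAt Z s₀ < 0 → B.eval (s₀.re : ℂ) = 0

/-- **A positive answer to Denef's question for `f` and every prime `p`**: the Poincare series of `f` is
the expansion at `0` of a rational function `Φ`, and for every pole `T₀` of `Φ` (root of the reduced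
denominator) the number `t₀ = -log |T₀| / log p` is a root of every `B` with
`B(s) f ^ s = P(s) f ^ (s + 1)`, for instance of `b_f`. -/
def DQ {V : Type} [Fintype V] (f : MvPolynomial V ℤ) : Prop :=
  ∀ (p : ℕ) [Fact p.Prime] (B : Polynomial ℂ), IsBFunction (map (Int.castRingHom ℂ) f) B →
    ∃ Φ : RatFunc ℂ,
      ((Φ.denom : Polynomial ℂ) : PowerSeries ℂ) * Pool.Agent.W427.SMC.poincare p f =
        ((Φ.num : Polynomial ℂ) : PowerSeries ℂ) ∧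
      ∀ T₀ : ℂ, Φ.denom.eval T₀ = 0 → B.eval ((-Real.log ‖T₀‖ / Real.log p : ℝ) : ℂ) = 0

theorem smc_of {V : Type} [Fintype V] (f : MvPolynomial V ℚ)
    (h : ∀ (p : ℕ) [Fact p.Prime], FR p (mR p (hyp f)) (FF ((hyp f).toP p))) : SMC f :=
  fun p _ B hB Z hZ hZp s₀ hs => Pool.Agent.KS6_80.TF.mero_of f (h p) B hB Z hZ hZp s₀ hs

theorem dq_of {V : Type} [Fintype V] (f : MvPolynomial V ℤ)
    (h : ∀ (p : ℕ) [Fact p.Prime], FR p (mR p (hyp (map (Int.castRingHom ℚ) f)))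
      (FF ((hyp (map (Int.castRingHom ℚ) f)).toP p))) : DQ f :=
  fun p _ B hB => Pool.Agent.KS6_80.TF.poin_of f (h p) B hB

end Pool.Agent.KS6_80.AD
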